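import Mathlib
import Pool.Agent.Work.MP_25be31_al.Dich

/-! The chain of convex subgroups of an orderable group of finite special rank.  For every
bi-invariant order each interval of this chain has at most `r ^ 3 + 2 * r + 1` members or contains
a copy of the real line (so at least continuum many members).  So every convex subgroup
which contains fewer than continuum many convex subgroups is the isolator of a finitely generated
subgroup, and if SOME bi-invariant order of `G` has fewer than continuum many convex subgroups,
then the answer to Q1 is positive for EVERY bi-invariant order of `G`.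

Definitions (files `Chain`, `Hoelder`, `Convex`, `Main` in `Pool/Agent/Work/MP_25be31_al`):
* `SpecialRankLE G r` : every finitely generated subgroup is generated by at most `r` elements;
* `Cvx C` : `a ≤ g ≤ b` with `a, b ∈ C` implies `g ∈ C`;
* `isolator H` : the smallest subgroup `I ⊇ H` such that `g ^ n ∈ I`, `n > 0` implies `g ∈ I`. -/

set_option autoImplicit false

namespace Pool.Agent.Results.MP_25be31_al.Dichotomy

open Pool.Agent.Work.MP_25be31_al
open scoped Cardinal

universe u

theorem result (G : Type u) [Group G] (r : ℕ) (hr : SpecialRankLE G r) :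
      (∀ [LinearOrder G] [MulLeftMono G] [MulRightMono G],
        (∀ A B : Subgroup G,
          ({C : Subgroup G | Cvx C ∧ A ≤ C ∧ C ≤ B}.Finite ∧
            {C : Subgroup G | Cvx C ∧ A ≤ C ∧ C ≤ B}.ncard ≤ r ^ 3 + 2 * r + 1) ∨
          ∃ F : ℝ → Subgroup G, StrictMono F ∧ ∀ x, Cvx (F x) ∧ A ≤ F x ∧ F x ≤ B) ∧
        (∀ C : Subgroup G, Cvx C → #{E : Subgroup G // Cvx E ∧ E ≤ C} < 𝔠 →
          Group.IsSolvable C ∧ ∃ H : Subgroup G, H.FG ∧ C = isolator H)) ∧
      ((∃ (_ : LinearOrder G), MulLeftMono G ∧ MulRightMono G ∧
          #{C : Subgroup G // Cvx C} < 𝔠) →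
        Group.IsSolvable G ∧ ∀ [LinearOrder G] [MulLeftMono G] [MulRightMono G],
          (∀ C : Subgroup G, Cvx C → ∃ H : Subgroup G, H.FG ∧ C = isolator H) ∧
          {C : Subgroup G | Cvx C}.Finite ∧
          {C : Subgroup G | Cvx C}.ncard ≤ r ^ 3 + 2 * r + 1) := by
  refine ⟨fun {_ _ _} => ⟨dich_real hr, fun C hC h => small_convex hr hC h⟩, ?_⟩
  rintro ⟨_, h1, h2, h3⟩
  have hs := solvable_of_small hr h3
  exact ⟨hs, fun {_ _ _} => all_orders hr hs⟩

end Pool.Agent.Results.MP_25be31_al.Dichotomy
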