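import Mathlib
import Pool.Agent.Work.MP_25be31_al.Main

/-! Q1 of the problem is equivalent to the statement that every (finitely generated) orderable
group of finite special rank is soluble, and to the statement that every nontrivial ordered group
of finite special rank has a largest proper convex subgroup.

Definitions (files `Chain`, `Hoelder`, `Convex`, `Main` in `Pool/Agent/Work/MP_25be31_al`):
* `SpecialRankLE G r` : every finitely generated subgroup is generated by at most `r` elements;
* `Cvx C` : `a ≤ g ≤ b` with `a, b ∈ C` implies `g ∈ C`;
* `isolator H` : the smallest subgroup `I ⊇ H` such that `g ^ n ∈ I`, `n > 0` implies `g ∈ I`;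
* `Q1` : for every group `G` with a total order invariant under left and right multiplication, of
  special rank at most some `r`, every convex subgroup is the isolator of a finitely generated
  subgroup. -/

namespace Pool.Agent.Results.MP_25be31_al.Reduction

open Pool.Agent.Work.MP_25be31_al

universe u

theorem result :
    List.TFAE [
      Q1.{u},
      ∀ (G : Type u) [Group G] [LinearOrder G] [MulLeftMono G] [MulRightMono G] (r : ℕ),
        SpecialRankLE G r → ∃ H : Subgroup G, H.FG ∧ isolator H = ⊤,
      ∀ (G : Type u) [Group G] [LinearOrder G] [MulLeftMono G] [MulRightMono G] (r : ℕ),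
        SpecialRankLE G r → Nontrivial G → ∃ C : Subgroup G, Cvx C ∧ C ≠ ⊤ ∧
          ∀ E : Subgroup G, Cvx E → E ≠ ⊤ → E ≤ C,
      ∀ (G : Type u) [Group G] [LinearOrder G] [MulLeftMono G] [MulRightMono G] (r : ℕ),
        SpecialRankLE G r → Group.IsSolvable G,
      ∀ (G : Type u) [Group G] [LinearOrder G] [MulLeftMono G] [MulRightMono G] (r : ℕ),
        Group.FG G → SpecialRankLE G r → Group.IsSolvable G] :=
  tfae_all

end Pool.Agent.Results.MP_25be31_al.Reduction
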