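import Mathlib
import Pool.Agent.Work.MP_25be31_al.Main

/-! For an ordered group `G` of special rank at most `r` the positive answer to Q1 (every convex
subgroup is the isolator of a finitely generated subgroup) is equivalent to the solubility of `G`,
to local solubility, to derived length at most `r ^ 3 + 2 * r`, to the finiteness of the chain of
convex subgroups, and to several weaker looking conditions on convex subgroups.

Definitions (files `Chain`, `Hoelder`, `Convex` in `Pool/Agent/Work/MP_25be31_al`):
* `SpecialRankLE G r` : every finitely generated subgroup is generated by at most `r` elements;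
* `Cvx C` : `a ≤ g ≤ b` with `a, b ∈ C` implies `g ∈ C`;
* `isolator H` : the smallest subgroup `I ⊇ H` such that `g ^ n ∈ I`, `n > 0` implies `g ∈ I`. -/

namespace Pool.Agent.Results.MP_25be31_al.SolubleCriterion

open Pool.Agent.Work.MP_25be31_al

universe u

theorem result (G : Type u) [Group G] [LinearOrder G] [MulLeftMono G] [MulRightMono G] (r : ℕ)
    (hr : SpecialRankLE G r) :
    List.TFAE [
      ∀ C : Subgroup G, Cvx C → ∃ H : Subgroup G, H.FG ∧ C = isolator H,
      ∀ C : Subgroup G, Cvx C → C.Normal → ∃ H : Subgroup G, H.FG ∧ C = isolator H,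
      Group.IsSolvable G,
      ∀ K : Subgroup G, K.FG → Group.IsSolvable K,
      derivedSeries G (r ^ 3 + 2 * r) = ⊥,
      {C : Subgroup G | Cvx C}.Finite,
      {C : Subgroup G | Cvx C}.Finite ∧ {C : Subgroup G | Cvx C}.ncard ≤ r ^ 3 + 2 * r + 1,
      ∀ C : Subgroup G, Cvx C → C.Normal,
      ∀ C : Subgroup G, Cvx C → C ≠ ⊥ → ∃ C' : Subgroup G, Cvx C' ∧ C' < C ∧
        ∀ E : Subgroup G, Cvx E → E < C → E ≤ C',
      ∀ C : Subgroup G, Cvx C → C ≠ ⊤ → ∃ C' : Subgroup G, Cvx C' ∧ C < C' ∧
        ∀ E : Subgroup G, Cvx E → C < E → C' ≤ E] :=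
  tfae_one hr

end Pool.Agent.Results.MP_25be31_al.SolubleCriterion
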